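import Pool.Agent.OMF.Stmts

set_option autoImplicit false

/-!
# OMF, row CLS: fully good lines at a point off the rich lines
-/

namespace Pool.Agent.OMF.H35

open Finset Pool.Agent.GTO Pool.Agent.OMF
open scoped Classical

variable {ι : Type} [Fintype ι]

theorem line_RC {a : ι → V} {k : ℕ} {ℓ : Finset ι} (h : ℓ ∈ lns a) (hk : k ≤ ℓ.card) :
    ℓ ∈ RC a k := by
  unfold RC
  rw [mem_filter]
  exact ⟨mem_univ _, hk, Or.inl h⟩

theorem quad_RC {a : ι → V} {k : ℕ} {e : Fin 6 → ℝ} (h : NoLineQ e) (hk : k ≤ (Zq a e).card) :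
    Zq a e ∈ RC a k := by
  unfold RC
  rw [mem_filter]
  exact ⟨mem_univ _, hk, Or.inr (Or.inl ⟨e, h, rfl⟩)⟩

theorem cub_RC {a : ι → V} {k : ℕ} {c : Fin 10 → ℝ} (h : NoLine c) (hk : k ≤ (Zc a c).card) :
    Zc a c ∈ RC a k := by
  unfold RC
  rw [mem_filter]
  exact ⟨mem_univ _, hk, Or.inr (Or.inr ⟨c, h, rfl⟩)⟩

theorem mem_EX {a : ι → V} {k : ℕ} {C C' : Finset ι} {i x : ι} (h : C ∈ RC a k) (h' : C' ∈ RC a k)
    (hi : i ∈ C) (hi' : i ∈ C') (hx : x ∈ C) (hx' : x ∉ C') : i ∈ EX a k := by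
  unfold EX
  rw [mem_filter]
  exact ⟨mem_univ _, C, h, C', h', fun hh => hx' (hh ▸ hx), hi, hi'⟩

theorem mem_UU {a : ι → V} {k : ℕ} {x : ι} :
    x ∈ UU a k ↔ ∃ ℓ ∈ lns a, k ≤ ℓ.card ∧ x ∈ ℓ := by
  unfold UU
  rw [mem_filter]
  exact ⟨fun h => h.2, fun h => ⟨mem_univ _, h⟩⟩

theorem UU_of_Cls {a : ι → V} {k : ℕ} {e : Fin 6 → ℝ} {x z : ι} (h : Cls a k e x z) :
    z ∈ UU a k := by
  obtain ⟨ℓ, hℓ, hk, hz, _⟩ := h
  exact mem_UU.mpr ⟨ℓ, hℓ, hk, hz⟩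

/-- the types at `y`, in terms of the two other points of the line -/
theorem typ_at (hTyp : TypStmt) {a : ι → V} (hPI : PI a) {N k : ℕ} (hN : 10 ≤ N) (hk : k ≤ N + 1)
    (hn : 2 * N + 5 < Fintype.card ι) {x y z : ι} {ℓ : Finset ι} (hs : Sees a N y ℓ)
    (hℓ : ℓ = {x, y, z}) (hxy : x ≠ y) (hyz : y ≠ z) (hzx : z ≠ x) :
    TyI a k y x z ∨ TyA a k y x z ∨ TyB a k y x z ∨ TyB a k y z x ∨
      (x ∈ UU a k ∧ z ∈ UU a k) := by
  obtain ⟨y', z', e1, h1, h2, h3, ht⟩ := hTyp ι a hPI N k y ℓ hN hk hn hs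
  have hx : x ∈ ({y, y', z'} : Finset ι) := by
    rw [← e1, hℓ]
    simp
  have hz : z ∈ ({y, y', z'} : Finset ι) := by
    rw [← e1, hℓ]
    simp
  simp only [mem_insert, mem_singleton] at hx hz
  rcases hx with hx | hx | hx
  · exact absurd hx hxy
  · rcases hz with hz | hz | hz
    · exact absurd hz hyz.symm
    · exact absurd (hz.trans hx.symm) hzx
    · subst hx hz
      exact ht
  · rcases hz with hz | hz | hz
    · exact absurd hz hyz.symm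
    · subst hx hz
      rcases ht with ht | ht | ht | ht | ht
      · obtain ⟨c, a1, a2, a3, a4, a5⟩ := ht
        exact Or.inl ⟨c, a1, a2, a3, a5, a4⟩
      · obtain ⟨e, a1, a2, a3, a4, a5⟩ := ht
        exact Or.inr (Or.inl ⟨e, a1, a2, a3, a5, a4⟩)
      · exact Or.inr (Or.inr (Or.inr (Or.inl ht)))
      · exact Or.inr (Or.inr (Or.inl ht))
      · exact Or.inr (Or.inr (Or.inr (Or.inr ⟨ht.2, ht.1⟩)))
    · exact absurd (hz.trans hx.symm) hzx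

/-- **CLS** -/
theorem cls (hTyp : TypStmt) : ClsStmt := by
  intro ι _ a hPI N k x ℓ hN hk hn hxU hℓ hx
  unfold FG at hℓ
  rw [mem_filter] at hℓ
  obtain ⟨y, z, e1, hxy, hyz, hzx, ht⟩ := hTyp ι a hPI N k x ℓ hN hk hn (hℓ.2 x hx)
  refine ⟨y, z, e1, hxy, hyz, hzx, ?_⟩
  by_cases hyE : y ∈ EX a k
  · exact Or.inl hyE
  by_cases hzE : z ∈ EX a k
  · exact Or.inr (Or.inl hzE)
  have hy : y ∈ ℓ := by
    rw [e1]
    simp
  have hT := typ_at hTyp hPI hN hk hn (hℓ.2 y hy) e1 hxy hyz hzx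
  rcases ht with ht | ht | ht | ht | ht
  · exact Or.inr (Or.inr (Or.inl ht))
  · exfalso
    obtain ⟨e, a1, a2, a3, a4, a5⟩ := ht
    have hK := quad_RC a1 a2
    rcases hT with hT | hT | hT | hT | hT
    · obtain ⟨c, b1, b2, b3, b4, b5⟩ := hT
      exact hyE (mem_EX (cub_RC b1 b2) hK b3 a4 b4 a3)
    · obtain ⟨e', b1, b2, b3, b4, b5⟩ := hT
      exact hzE (mem_EX (quad_RC b1 b2) hK b5 a5 b4 a3)
    · obtain ⟨e', b1, b2, b3, b4, _⟩ := hT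
      exact hyE (mem_EX (quad_RC b1 b2) hK b3 a4 b4 a3)
    · obtain ⟨e', _, _, _, _, _, b6⟩ := hT
      exact hxU (UU_of_Cls b6)
    · exact hxU hT.1
  · exact Or.inr (Or.inr (Or.inr (Or.inl ht)))
  · exact Or.inr (Or.inr (Or.inr (Or.inr ht)))
  · exfalso
    obtain ⟨hyU, hzU⟩ := ht
    obtain ⟨l1, c1, c2, c3⟩ := mem_UU.mp hyU
    obtain ⟨l2, d1, d2, d3⟩ := mem_UU.mp hzU
    have hx1 : x ∉ l1 := fun h => hxU (mem_UU.mpr ⟨l1, c1, c2, h⟩)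
    have hx2 : x ∉ l2 := fun h => hxU (mem_UU.mpr ⟨l2, d1, d2, h⟩)
    rcases hT with hT | hT | hT | hT | hT
    · obtain ⟨c, b1, b2, b3, b4, b5⟩ := hT
      exact hyE (mem_EX (cub_RC b1 b2) (line_RC c1 c2) b3 c3 b4 hx1)
    · obtain ⟨e', b1, b2, b3, b4, b5⟩ := hT
      exact hzE (mem_EX (quad_RC b1 b2) (line_RC d1 d2) b5 d3 b4 hx2)
    · obtain ⟨e', b1, b2, b3, b4, _⟩ := hT
      exact hyE (mem_EX (quad_RC b1 b2) (line_RC c1 c2) b3 c3 b4 hx1)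
    · obtain ⟨e', _, _, _, _, _, b6⟩ := hT
      exact hxU (UU_of_Cls b6)
    · exact hxU hT.1

end Pool.Agent.OMF.H35
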